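import Pool.Agent.Lib.RM67.Arith
import Pool.Agent.Lib.MP_6073f3_nt.Z.SW
import Pool.Agent.Lib.MP_200139_nt.Harm

/-! Project rg67: primes congruent to one, and two counting lemmas. -/

namespace Pool.Agent.Lib.RG67

open Finset Real Filter Pool.Agent.Lib.RM67

noncomputable section

/-- The primes congruent to one in an interval. -/
def PQ (q a b : ℕ) : Finset ℕ := (Ioc a b).filter fun p => p.Prime ∧ p % q = 1

/-- The sum of their reciprocals. -/
def lam (q a b : ℕ) : ℝ := ∑ p ∈ PQ q a b, (1 / p : ℝ)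

theorem lam_add (q : ℕ) {a b c : ℕ} (h1 : a ≤ b) (h2 : b ≤ c) :
    lam q a c = lam q a b + lam q b c := by
  simp only [lam, PQ, sum_filter, sum_Ioc_consecutive _ h1 h2]

theorem lam_nonneg (q a b : ℕ) : 0 ≤ lam q a b := sum_nonneg fun _ _ => by positivity

theorem lam_ge : ∃ K : ℕ, ∀ q a b : ℕ, 2 ≤ q → 2 * q ≤ a → K ≤ a → a ≤ b →
    (log (b + 1) - log (a + 1)) / (4 * q) ≤ lam q (2 ^ a) (2 ^ b) := by
  obtain ⟨C, hC⟩ := RankZero.siegel_walfisz 2 1
  refine ⟨⌈10 * C⌉₊, fun q a b hq ha hK hb => ?_⟩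
  have hq' : (2 : ℝ) ≤ q := by exact_mod_cast hq
  induction b, hb using Nat.le_induction with
  | base => simp [lam_nonneg]
  | succ k hk ih =>
    have hle : 2 ^ k ≤ 2 ^ (k + 1) := Nat.pow_le_pow_right two_pos k.le_succ
    have k1 : 2 * (q : ℝ) ≤ k := by exact_mod_cast ha.trans hk
    have k2 : 10 * C ≤ k := (Nat.le_ceil _).trans (by exact_mod_cast hK.trans hk)
    have e : log ((2 ^ (k + 1) : ℕ) : ℝ) = (k + 1) * log 2 := by
      rw [Nat.cast_pow, log_pow]; push_cast; rfl
    have l1 := log_two_gt_d9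
    have l2 := log_two_lt_d9
    have h := fun M hM => abs_le.1 (hC (2 ^ (k + 1)) q 1 M (le_self_pow₀ one_le_two (by omega))
      (by omega) (by rw [e]; nlinarith) hM hq)
    have h1 := (h _ le_rfl).1
    have h2 := (h _ hle).2
    simp only [RankZero.Eth, RankZero.cls, Nat.coprime_one_left_eq_true, if_true, Nat.sub_zero, e,
      sum_filter] at h1 h2
    rw [← sum_Ioc_consecutive _ (Nat.zero_le _) hle] at h1
    have h3 : ∑ n ∈ Ioc (2 ^ k) (2 ^ (k + 1)), (if n % q = 1 then RankZero.th n else 0) ≤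
        2 ^ (k + 1) * (k + 1) * lam q (2 ^ k) (2 ^ (k + 1)) := by
      rw [lam, PQ, sum_filter, mul_sum]
      refine sum_le_sum fun n hn => ?_
      unfold RankZero.th
      by_cases hp : n.Prime <;> by_cases hn1 : n % q = 1 <;> simp only [hp, hn1, if_true, if_false,
        and_self, and_false, false_and, mul_zero, le_refl]
      have n0 : (0 : ℝ) < n := by exact_mod_cast hp.pos
      have n1 : (n : ℝ) ≤ 2 ^ (k + 1) := by exact_mod_cast (mem_Ioc.1 hn).2
      have n2 : log n ≤ k + 1 := by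
        have := log_le_log n0 n1
        rw [log_pow] at this
        push_cast at this
        nlinarith
      rw [mul_one_div, le_div_iff₀ n0, mul_comm]
      exact mul_le_mul n1 n2 (log_natCast_nonneg n) (by positivity)
    have t0 : (0 : ℝ) < q.totient := by exact_mod_cast Nat.totient_pos.2 (by omega)
    have t1 : (2 : ℝ) ^ k / q ≤ 2 ^ k / q.totient := by
      gcongr; exact Nat.totient_le q
    have t2 : C * (2 * 2 ^ k) / ((k + 1) * log 2) ^ 2 ≤ 2 ^ k / q / 4 := by
      rw [div_div, div_le_div_iff₀ (by positivity) (by positivity)]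
      have a1 : C * (8 * q) ≤ ((k + 1) * log 2) ^ 2 := by
        have : (0.48 : ℝ) ≤ log 2 ^ 2 := by nlinarith
        rcases le_total C 0 with h | h
        · nlinarith [sq_nonneg ((k + 1) * log 2)]
        · have := mul_le_mul_of_nonneg_left this (sq_nonneg ((k : ℝ) + 1))
          nlinarith
      nlinarith [mul_le_mul_of_nonneg_left a1 (show (0 : ℝ) ≤ 2 ^ k by positivity)]
    have h4 : 1 / (k + 1) / (4 * q) ≤ lam q (2 ^ k) (2 ^ (k + 1)) := by
      push_cast at h1 h2
      rw [pow_succ' (2 : ℝ) k] at h1 h2 h3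
      rw [mul_div_assoc 2] at h1
      have h6 : (2 : ℝ) ^ k / q / 2 ≤ 2 * 2 ^ k * (k + 1) * lam q (2 ^ k) (2 ^ (k + 1)) := by linarith
      refine le_of_mul_le_mul_left (le_trans (le_of_eq ?_) h6) (by positivity)
      field_simp; ring
    have h5 : log (k + 1 + 1) - log (k + 1) ≤ 1 / (k + 1 : ℝ) := by
      rw [← log_div (by positivity) (by positivity)]
      exact (log_le_sub_one_of_pos (by positivity)).trans_eq (by field_simp; ring)
    rw [lam_add q (Nat.pow_le_pow_right two_pos hk) hle]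
    refine le_trans ?_ (add_le_add ih h4)
    rw [← add_div]
    push_cast
    gcongr
    linarith

theorem lam_le {q : ℕ} (hq : q.Prime) (N : ℕ) :
    lam q 0 N ≤ (234 + 8 * Nat.log 2 q + 224 * Nat.log 2 (Nat.log 2 N)) / q := by
  have hq0 : (0 : ℝ) < q := by exact_mod_cast hq.pos
  set s := Nat.log 2 q + 1 with hs
  have hqs : q ≤ 2 ^ s := (Nat.lt_pow_succ_log_self one_lt_two q).le
  have hc : ∀ a b, ∀ x ∈ PQ q a b, ∀ y ∈ PQ q a b, x ≡ y [MOD q] := fun a b x hx y hy =>
    (mem_filter.1 hx).2.2.trans (mem_filter.1 hy).2.2.symm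
  have key : ∀ i : ℕ, lam q 0 (2 ^ (8 * (s * 2 ^ i))) ≤ (2 + 8 * s + 224 * i) / q := by
    intro i
    induction i with
    | zero =>
      refine (VPal.spaced_sum _ q q (2 ^ (8 * (s * 2 ^ 0))) hq.pos hq.pos (fun p hp => ?_)
        (hc _ _)).trans ?_
      · simp only [PQ, mem_filter, mem_Ioc] at hp
        refine ⟨not_lt.1 fun h => ?_, hp.1.2⟩
        rw [Nat.mod_eq_of_lt h] at hp
        exact hp.2.1.ne_one hp.2.2
      · rw [← add_div, Nat.cast_pow, log_pow]
        push_cast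
        refine div_le_div_of_nonneg_right ?_ hq0.le
        nlinarith [log_two_lt_d9, (Nat.cast_nonneg s : (0 : ℝ) ≤ s)]
    | succ i ih =>
      have h := VPal.class_primes_le (E := 2) (s := s * 2 ^ i) hq (Nat.mul_pos (by omega) i.two_pow_pos)
        (hqs.trans (Nat.pow_le_pow_right two_pos (Nat.le_mul_of_pos_right _ i.two_pow_pos)))
        (PQ q (2 ^ (8 * (s * 2 ^ i))) (2 ^ (8 * (s * 2 ^ i) * 2)))
        (fun p hp => mem_filter.2 ⟨(mem_filter.1 hp).1, (mem_filter.1 hp).2.1⟩) (hc _ _)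
      rw [show 8 * (s * 2 ^ (i + 1)) = 8 * (s * 2 ^ i) * 2 by ring, lam_add q (Nat.zero_le _)
        (Nat.pow_le_pow_right two_pos (Nat.le_mul_of_pos_right _ two_pos))]
      refine (add_le_add ih h).trans_eq ?_
      push_cast; ring
  have h := key (Nat.log 2 (Nat.log 2 N) + 1)
  have h1 := Nat.lt_pow_succ_log_self one_lt_two N
  have h2 := Nat.lt_pow_succ_log_self one_lt_two (Nat.log 2 N)
  have h3 := Nat.le_mul_of_pos_left (2 ^ (Nat.log 2 (Nat.log 2 N) + 1)) (show 0 < 8 * s by omega)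
  rw [lam_add q (Nat.zero_le N) (h1.le.trans (Nat.pow_le_pow_right two_pos
    (le_trans h2 (mul_assoc 8 s _ ▸ h3))))] at h
  refine ((le_add_of_nonneg_right (lam_nonneg _ _ _)).trans h).trans_eq ?_
  rw [hs]; push_cast; ring

theorem cnt_dvd (M d : ℕ) : ∑ m ∈ Ioc 0 M, (if d ∣ m then (1 : ℝ) else 0) = (M / d : ℕ) := by
  rw [← sum_filter, sum_const, Nat.Ioc_filter_dvd_card_eq_div, nsmul_one]

/-- Turan. -/
theorem turan {M : ℕ} {P : Finset ℕ} (hP : ∀ p ∈ P, p.Prime) (hc : P.card ≤ M)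
    (h2 : 2 ≤ ∑ p ∈ P, (1 / p : ℝ)) :
    (((Ioc 0 M).filter fun m => (P.filter (· ∣ m)).card ≤ 1).card : ℝ) ≤
      12 * M / ∑ p ∈ P, (1 / p : ℝ) := by
  set l := ∑ p ∈ P, (1 / p : ℝ) with hl
  set o : ℕ → ℝ := fun m => ∑ p ∈ P, if p ∣ m then 1 else 0 with ho
  have h1 : M * l - M ≤ ∑ m ∈ Ioc 0 M, o m := by
    rw [sum_comm, hl, mul_sum]
    have : ∑ p ∈ P, ((M : ℝ) * (1 / p) - 1) ≤ ∑ p ∈ P, ∑ m ∈ Ioc 0 M, if p ∣ m then (1 : ℝ) else 0 :=
      sum_le_sum fun p hp => by
        rw [cnt_dvd, mul_one_div, sub_le_iff_le_add, div_le_iff₀ (by exact_mod_cast (hP p hp).pos)]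
        exact_mod_cast (by rw [mul_comm]; exact (Nat.lt_mul_div_succ M (hP p hp).pos).le :
          M ≤ (M / p + 1) * p)
    rw [sum_sub_distrib, sum_const, nsmul_one] at this
    linarith [(Nat.cast_le (α := ℝ)).2 hc]
  have h3 : ∑ m ∈ Ioc 0 M, o m ^ 2 ≤ M * l ^ 2 + M * l := by
    simp only [ho, sq, sum_mul_sum, hl]
    simp only [mul_sum, ← sum_add_distrib]
    rw [sum_comm]
    refine sum_le_sum fun p hp => ?_
    rw [sum_comm]
    have : (M : ℝ) * (1 / p) = ∑ p' ∈ P, if p = p' then (M : ℝ) * (1 / p) else 0 := by simp [hp]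
    rw [this, ← sum_add_distrib]
    refine sum_le_sum fun p' hp' => ?_
    split_ifs with h
    · subst h
      simp only [ite_zero_mul_ite_zero, and_self, mul_one, cnt_dvd, mul_one_div]
      exact Nat.cast_div_le.trans (le_add_of_nonneg_left (by positivity))
    · have c := (Nat.coprime_primes (hP p hp) (hP p' hp')).2 h
      have e : ∀ m, p ∣ m ∧ p' ∣ m ↔ p * p' ∣ m := fun m =>
        ⟨fun h => c.mul_dvd_of_dvd_of_dvd h.1 h.2, fun h =>
          ⟨(dvd_mul_right _ _).trans h, (dvd_mul_left _ _).trans h⟩⟩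
      simp only [ite_zero_mul_ite_zero, e, mul_one, cnt_dvd, add_zero]
      exact Nat.cast_div_le.trans_eq (by push_cast; ring)
  have h4 : (((Ioc 0 M).filter fun m => (P.filter (· ∣ m)).card ≤ 1).card : ℝ) * (l / 2) ^ 2 ≤
      ∑ m ∈ Ioc 0 M, (l - o m) ^ 2 := by
    rw [← nsmul_eq_mul]
    refine (card_nsmul_le_sum _ _ _ fun m hm => ?_).trans
      (sum_le_sum_of_subset_of_nonneg (filter_subset _ _) fun _ _ _ => sq_nonneg _)
    have : o m ≤ 1 := by
      simp only [ho, sum_boole]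
      exact_mod_cast (mem_filter.1 hm).2
    exact pow_le_pow_left₀ (by linarith) (by linarith) 2
  simp only [sub_sq, sum_add_distrib, sum_sub_distrib, ← mul_sum, sum_const, Nat.card_Ioc,
    Nat.sub_zero, nsmul_eq_mul] at h4
  rw [le_div_iff₀ (by linarith)]
  refine le_of_mul_le_mul_right ?_ (show 0 < l by linarith)
  nlinarith [mul_le_mul_of_nonneg_left h1 (show 0 ≤ 2 * l by linarith)]

theorem cop_cnt {P : ℕ} (hP : 0 < P) (N : ℕ) :
    |(((Ioc 0 N).filter fun n => P.Coprime n).card : ℝ) - N * (P.totient / P)| ≤ P := by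
  induction N using Nat.strong_induction_on with
  | _ N ih =>
    have t : (P.totient : ℝ) ≤ P := by exact_mod_cast Nat.totient_le P
    have hP' : (0 : ℝ) < P := by positivity
    rcases lt_or_ge N P with h | h
    · have a : (((Ioc 0 N).filter fun n => P.Coprime n).card : ℝ) ≤ P := by
        exact_mod_cast (card_filter_le _ _).trans (by simp; omega)
      have b : (N : ℝ) * (P.totient / P) ≤ P := (mul_le_of_le_one_right N.cast_nonneg
        ((div_le_one hP').2 t)).trans (by exact_mod_cast h.le)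
      have c : 0 ≤ (N : ℝ) * (P.totient / P) := by positivity
      have := Nat.cast_nonneg (α := ℝ) ((Ioc 0 N).filter fun n => P.Coprime n).card
      exact abs_le.2 ⟨by linarith, by linarith⟩
    · obtain ⟨k, rfl⟩ := Nat.exists_eq_add_of_le' h
      have e := Nat.filter_coprime_Ico_eq_totient P (k + 1)
      rw [add_right_comm, Ico_add_one_add_one_eq_Ioc] at e
      rw [← Ioc_union_Ioc_eq_Ioc (Nat.zero_le k) (Nat.le_add_right k P), filter_union,
        card_union_of_disjoint (disjoint_filter_filter (Ioc_disjoint_Ioc_of_le le_rfl)), e]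
      convert ih k (by omega) using 2
      push_cast
      field_simp
      ring

end

end Pool.Agent.Lib.RG67
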