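import Pool.Agent.Lib.RG67.M3
import Pool.Agent.Lib.RG67.AP
import Pool.Agent.Lib.MP_cb9dee_al.Full

/-! Project rg67: upper and lower bounds for the count. -/

namespace Pool.Agent.Lib.RG67

open Finset Real Filter Topology Pool.Agent.Lib.RM67 Pool.Agent.Lib.MP_cb9dee_al
open scoped Classical

noncomputable section

/-- The product of the odd primes up to `y`. -/
def PP (y : ℕ) : ℕ := ∏ p ∈ (range (y + 1)).filter fun p => p.Prime ∧ p ≠ 2, p

/-- The sifted set. -/
def GG (y N : ℕ) : Finset ℕ := (Ioc 0 N).filter fun n => ¬ 4 ∣ n ∧ (PP y).Coprime n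

/-- The counted set. -/
def AA (N : ℕ) : Finset ℕ := (Ioc 0 N).filter Full

theorem cop_iff {y n : ℕ} : (PP y).Coprime n ↔ ∀ p, p.Prime → p ≠ 2 → p ∣ n → y < p := by
  simp only [PP, Nat.coprime_prod_left_iff, mem_filter, mem_range]
  refine ⟨fun h p hp h2 hd => not_le.1 fun hy => ?_, fun h p hp => ?_⟩
  · exact (hp.coprime_iff_not_dvd).1 (h p ⟨by omega, hp, h2⟩) hd
  · exact (hp.2.1.coprime_iff_not_dvd).2 fun hd => by have := h p hp.2.1 hp.2.2 hd; omega

theorem GG_est {y : ℕ} (hy : 2 ≤ y) (N : ℕ) :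
    |((GG y N).card : ℝ) - 3 / 2 * V y * N| ≤ 3 * 4 ^ y := by
  have h0 : 0 < PP y := prod_pos fun p hp => (mem_filter.1 hp).2.1.pos
  have h1 : (PP y : ℝ) ≤ 4 ^ y := by
    have : PP y ∣ primorial y := prod_dvd_prod_of_subset _ _ _
      (monotone_filter_right _ fun p _ hp => hp.1)
    exact_mod_cast (Nat.le_of_dvd (primorial_pos y) this).trans (primorial_le_four_pow y)
  have h2 : ((PP y).totient : ℝ) / PP y = 2 * V y := by
    have a := congrArg (Rat.cast (K := ℝ)) (Nat.totient_eq_mul_prod_factors (PP y))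
    push_cast at a
    rw [a, mul_div_cancel_left₀ _ (by positivity), PP,
      Nat.primeFactors_prod fun p hp => (mem_filter.1 hp).2.1, V,
      ← mul_prod_erase _ _ (mem_range.2 (show 2 < y + 1 by omega)), r_prime Nat.prime_two,
      ← mul_assoc, prod_filter, ← mul_prod_erase _ _ (mem_range.2 (show 2 < y + 1 by omega))]
    norm_num
    refine prod_congr rfl fun p hp => ?_
    by_cases h : p.Prime
    · simp [h, (mem_erase.1 hp).1, r_prime h]
    · simp [h, r_not h]
  have h3 : ((PP y).totient : ℝ) / PP y ≤ 1 :=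
    (div_le_one (by positivity)).2 (by exact_mod_cast Nat.totient_le _)
  have h4 := abs_le.1 (cop_cnt h0 N)
  have h5 := abs_le.1 (cop_cnt h0 (N / 4))
  have h6 : ((GG y N).card : ℝ) + ((Ioc 0 (N / 4)).filter fun n => (PP y).Coprime n).card =
      ((Ioc 0 N).filter fun n => (PP y).Coprime n).card := by
    simp only [GG, card_filter, Nat.cast_sum]
    rw [← sum_dvd (fun n => ((if (PP y).Coprime n then 1 else 0 : ℕ) : ℝ)), ← sum_add_distrib]
    refine sum_congr rfl fun n _ => ?_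
    by_cases h : 4 ∣ n
    · obtain ⟨m, rfl⟩ := h
      have : (PP y).Coprime 4 := cop_iff.2 fun p hp h2 hd =>
        absurd ((Nat.prime_dvd_prime_iff_eq hp Nat.prime_two).1
          (hp.dvd_of_dvd_pow (show p ∣ 2 ^ 2 from hd))) h2
      have e : (PP y).Coprime (4 * m) ↔ (PP y).Coprime m :=
        Nat.coprime_mul_iff_right.trans (and_iff_right this)
      simp only [e]
      simp
    · simp [h]
  have h7 : ((N / 4 : ℕ) : ℝ) ≤ N / 4 := Nat.cast_div_le
  have h8 : (N : ℝ) ≤ 4 * (N / 4 : ℕ) + 4 := by exact_mod_cast (by omega)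
  have h9 : (1 : ℝ) ≤ 4 ^ y := one_le_pow₀ (by norm_num)
  have h10 : 0 ≤ ((PP y).totient : ℝ) / PP y := by positivity
  rw [h2] at h3 h4 h5 h10
  rw [abs_le]
  constructor <;> nlinarith [h4.1, h4.2, h5.1, h5.2]

theorem AA_le {y N a b : ℕ} {D : ℝ} (hy : 4 ≤ y) (hb : 2 ^ b * y ≤ N) (hD : 8 * y ≤ D)
    (h : ∀ q : ℕ, 2 ≤ q → q ≤ y → D / (4 * q) ≤ lam q (2 ^ a) (2 ^ b)) :
    ((AA N).card : ℝ) ≤ (GG y N).card + y * (48 * N / D) := by
  have h1 : AA N ⊆ GG y N ∪ (Ioc 1 y).biUnion fun q => (Ioc 0 N).filter fun n =>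
      q ∣ n ∧ ((PQ q (2 ^ a) (2 ^ b)).filter (· ∣ n)).card ≤ 1 := by
    intro n hn
    obtain ⟨hn, f⟩ := mem_filter.1 hn
    have key : ∀ q, 2 ≤ q → q ≤ y → q ∣ n → {p | p.Prime ∧ p ∣ n ∧ q ∣ p - 1}.Subsingleton →
        n ∈ (Ioc 1 y).biUnion fun q => (Ioc 0 N).filter fun n =>
          q ∣ n ∧ ((PQ q (2 ^ a) (2 ^ b)).filter (· ∣ n)).card ≤ 1 := fun q h1 h2 h3 h4 => by
      have : ∀ p ∈ (PQ q (2 ^ a) (2 ^ b)).filter (· ∣ n), p.Prime ∧ p ∣ n ∧ q ∣ p - 1 := by
        intro p hp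
        simp only [PQ, mem_filter] at hp
        exact ⟨hp.1.2.1, hp.2, hp.1.2.2 ▸ Nat.dvd_sub_mod p⟩
      exact mem_biUnion.2 ⟨q, mem_Ioc.2 ⟨h1, h2⟩, mem_filter.2 ⟨hn, h3,
        card_le_one.2 fun p hp p' hp' => h4 (this p hp) (this p' hp')⟩⟩
    rw [mem_union, or_iff_not_imp_left]
    intro hG
    by_cases h4 : 4 ∣ n
    · exact key 4 (by norm_num) hy h4 (f.2.2.2.2.2.1 h4).2.1
    simp only [GG, mem_filter, hn, h4, cop_iff, not_false_eq_true, true_and, not_forall, not_lt] at hG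
    obtain ⟨q, hq, h2, hd, hqy⟩ := hG
    refine key q hq.two_le hqy hd ?_
    rcases hq.eq_two_or_odd' with h | -
    · exact absurd h h2
    by_cases h3 : q = 3
    · subst h3; exact f.2.2.2.1 hd
    · exact (f.2.2.1 q hq (hq.five_le_of_ne_two_of_ne_three h2 h3) hd).anti
        fun p hp => ⟨hp.1, Or.inl hp.2⟩
  refine (Nat.cast_le.2 ((card_le_card h1).trans ((card_union_le _ _).trans
    (Nat.add_le_add_left card_biUnion_le _)))).trans ?_
  have hy' : (4 : ℝ) ≤ y := by exact_mod_cast hy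
  rw [Nat.cast_add, Nat.cast_sum]
  refine add_le_add le_rfl ((sum_le_card_nsmul _ _ (48 * N / D) fun q hq => ?_).trans ?_)
  · obtain ⟨q1, q2⟩ := mem_Ioc.1 hq
    have q0 : (0 : ℝ) < q := by positivity
    have q3 : (q : ℝ) ≤ y := by exact_mod_cast q2
    have l1 := h q q1 q2
    have l2 : 2 ≤ D / (4 * q) := by rw [le_div_iff₀ (by positivity)]; linarith
    have t := turan (M := N / q) (P := PQ q (2 ^ a) (2 ^ b)) (fun p hp => (mem_filter.1 hp).2.1)
      ((card_filter_le _ _).trans (by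
        rw [Nat.card_Ioc, Nat.le_div_iff_mul_le (by omega)]
        exact (Nat.mul_le_mul (Nat.sub_le _ _) q2).trans hb)) (l2.trans l1)
    refine le_trans ?_ (t.trans ((div_le_div₀ (by positivity) (mul_le_mul_of_nonneg_left
      Nat.cast_div_le (by norm_num)) (by linarith) l1).trans_eq (by field_simp; ring)))
    simp only [card_filter, Nat.cast_sum]
    rw [← sum_dvd]
    refine sum_le_sum fun n _ => ?_
    by_cases hd : q ∣ n
    · simp only [hd, true_and, if_true, ← card_filter]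
      split_ifs with k1 k2
      exacts [le_rfl, absurd ((card_le_card (monotone_filter_right _ fun p _ hp =>
        hp.trans (Nat.div_dvd_of_dvd hd))).trans k1) k2, by simp, le_rfl]
    · simp [hd]
  · rw [nsmul_eq_mul, Nat.card_Ioc]
    exact mul_le_mul_of_nonneg_right (by exact_mod_cast Nat.sub_le _ _)
      (div_nonneg (by positivity) (by linarith))

theorem sum_log {y : ℕ} (hy : 1 ≤ y) (N : ℕ) :
    ∑ q ∈ Ioc y N, log q / (q : ℝ) ^ 2 ≤ (log y + 2) / y := by
  rcases le_total N y with h | h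
  · rw [Ioc_eq_empty (by omega), sum_empty]; have := log_natCast_nonneg y; positivity
  suffices ∑ q ∈ Ioc y N, log q / (q : ℝ) ^ 2 ≤ (log y + 2) / y - (log N + 2) / N by
    have := log_natCast_nonneg N
    have : 0 ≤ (log N + 2) / N := by positivity
    linarith
  induction N, h using Nat.le_induction with
  | base => simp
  | succ n h ih =>
    have n1 : (1 : ℝ) ≤ n := by exact_mod_cast hy.trans h
    have a : log (n + 1 : ℝ) ≤ log n + 1 / n := by
      have := log_le_sub_one_of_pos (show (0 : ℝ) < (n + 1) / n by positivity)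
      rw [log_div (by positivity) (by positivity), add_div, div_self (by positivity)] at this
      linarith
    have b : 0 ≤ log (n + 1 : ℝ) := log_nonneg (by linarith)
    have c : log (n + 1 : ℝ) / (n + 1) ^ 2 + (log (n + 1) + 2) / (n + 1) ≤
        (log (n + 1) - 1 / n + 2) / n := by
      rw [← sub_nonneg]
      have : (log (n + 1 : ℝ) - 1 / n + 2) / n - (log (n + 1 : ℝ) / (n + 1) ^ 2 +
          (log (n + 1) + 2) / (n + 1)) =
          (log (n + 1) * n + (n - 1) * (n + 1)) / (n ^ 2 * (n + 1) ^ 2) := by field_simp; ring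
      rw [this]
      have : (0 : ℝ) ≤ n - 1 := by linarith
      positivity
    have d : (log (n + 1) - 1 / n + 2) / n ≤ (log n + 2) / (n : ℝ) := by gcongr; linarith
    rw [sum_Ioc_succ_top h]
    push_cast
    linarith

theorem lg2 (n : ℕ) : (Nat.log 2 n : ℝ) ≤ 2 * log n := by
  rcases n.eq_zero_or_pos with rfl | hn
  · simp
  have h : log ((2 : ℝ) ^ Nat.log 2 n) ≤ log n :=
    log_le_log (by positivity) (by exact_mod_cast Nat.pow_log_le_self 2 (by omega))
  rw [log_pow] at h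
  nlinarith [log_two_gt_d9, (Nat.cast_nonneg (Nat.log 2 n) : (0 : ℝ) ≤ _)]

theorem GG_le {y : ℕ} (hy : 3 ≤ y) (N : ℕ) : ((GG y N).card : ℝ) ≤ (AA N).card +
    N * ((267 + 224 * Nat.log 2 (Nat.log 2 N) + 16 * log y) / y) := by
  have h1 : GG y N ⊆ AA N ∪ ((Ioc y N).filter Nat.Prime).biUnion fun q =>
      (Ioc 0 N).filter (q ^ 2 ∣ ·) ∪ (PQ q 0 N).biUnion fun p => (Ioc 0 N).filter (q * p ∣ ·) := by
    intro n hn
    obtain ⟨hn, h4, hc⟩ := mem_filter.1 hn
    rw [cop_iff] at hc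
    rw [mem_union, or_iff_not_imp_right]
    intro hB
    have le : ∀ p, p ∣ n → p ≤ N := fun p hp =>
      (Nat.le_of_dvd (mem_Ioc.1 hn).1 hp).trans (mem_Ioc.1 hn).2
    have k1 : ∀ p, p.Prime → ¬ p ^ 2 ∣ n := fun p hp hd => by
      have hd' := (dvd_pow_self p two_ne_zero).trans hd
      by_cases h2 : p = 2
      · subst h2; exact h4 hd
      exact hB (mem_biUnion.2 ⟨p, mem_filter.2 ⟨mem_Ioc.2 ⟨hc p hp h2 hd', le p hd'⟩, hp⟩,
        mem_union_left _ (mem_filter.2 ⟨hn, hd⟩)⟩)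
    have k3 : ¬ 3 ∣ n := fun h => by have := hc 3 Nat.prime_three (by norm_num) h; omega
    refine mem_filter.2 ⟨hn, fun p hp _ h => k1 p hp ((pow_dvd_pow p (by norm_num)).trans h),
      fun p _ hp _ _ _ h => absurd h (k1 p hp), fun q hq h5 hd p hp => ?_, fun h => absurd h k3,
      fun h => absurd ((by norm_num : 3 ∣ 9).trans h) k3, fun h => absurd h h4,
      fun h => absurd ((by norm_num : 4 ∣ 8).trans h) h4⟩
    obtain ⟨hp, ⟨d1, d2⟩ | ⟨d1, -⟩⟩ := hp
    · have e : p % q = 1 := by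
        rw [← Nat.mod_eq_of_lt hq.one_lt]
        exact ((Nat.modEq_iff_dvd' hp.one_le).2 d2).symm
      have ne : q ≠ p := by rintro rfl; simp at e
      exact absurd (mem_biUnion.2 ⟨q, mem_filter.2 ⟨mem_Ioc.2 ⟨hc q hq (by omega) hd, le q hd⟩, hq⟩,
        mem_union_right _ (mem_biUnion.2 ⟨p, mem_filter.2 ⟨mem_Ioc.2 ⟨hp.pos, le p d1⟩, hp, e⟩,
          mem_filter.2 ⟨hn, ((Nat.coprime_primes hq hp).2 ne).mul_dvd_of_dvd_of_dvd hd d1⟩⟩)⟩) hB
    · exact absurd d1 (k1 p hp)
  refine (Nat.cast_le.2 ((card_le_card h1).trans ((card_union_le _ _).trans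
    (Nat.add_le_add_left card_biUnion_le _)))).trans ?_
  rw [Nat.cast_add, Nat.cast_sum]
  set J : ℝ := ((Nat.log 2 (Nat.log 2 N) : ℕ) : ℝ)
  have hJ : 0 ≤ J := Nat.cast_nonneg _
  refine add_le_add le_rfl ((sum_le_sum (g := fun q : ℕ =>
    N * ((235 + 224 * J) * ((q : ℝ) ^ 2)⁻¹ + 16 * (log q / q ^ 2))) fun q hq => ?_).trans ?_)
  · have hq' := (mem_filter.1 hq).2
    have q0 : (0 : ℝ) < q := by exact_mod_cast hq'.pos
    refine (Nat.cast_le.2 ((card_union_le _ _).trans (Nat.add_le_add_left card_biUnion_le _))).trans ?_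
    simp only [Nat.Ioc_filter_dvd_card_eq_div, Nat.cast_add, Nat.cast_sum]
    have a : ∑ p ∈ PQ q 0 N, ((N / (q * p) : ℕ) : ℝ) ≤ N / q * lam q 0 N := by
      rw [lam, mul_sum]
      exact sum_le_sum fun p _ => Nat.cast_div_le.trans_eq (by push_cast; ring)
    have b := mul_le_mul_of_nonneg_left ((lam_le hq' N).trans (div_le_div_of_nonneg_right
      (show _ ≤ 234 + 16 * log q + 224 * J by linarith [lg2 q]) q0.le))
      (show 0 ≤ (N : ℝ) / q by positivity)
    refine (add_le_add Nat.cast_div_le (a.trans b)).trans_eq ?_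
    push_cast; field_simp; ring
  · rw [← mul_sum]
    refine mul_le_mul_of_nonneg_left ((sum_le_sum_of_subset_of_nonneg (filter_subset _ _)
      fun q _ _ => by have := log_natCast_nonneg q; positivity).trans ?_) N.cast_nonneg
    have a : ∑ q ∈ Ioc y N, ((q : ℝ) ^ 2)⁻¹ ≤ (y : ℝ)⁻¹ := by
      rcases le_total N y with h | h
      · rw [Ioc_eq_empty (by omega), sum_empty]; positivity
      · exact (sum_Ioc_inv_sq_le_sub (by omega) h).trans (sub_le_self _ (by positivity))
    rw [sum_add_distrib, ← mul_sum, ← mul_sum]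
    refine (add_le_add (mul_le_mul_of_nonneg_left a (by positivity)) (mul_le_mul_of_nonneg_left
      (sum_log (by omega) N) (by norm_num))).trans_eq (by ring)

end

end Pool.Agent.Lib.RG67
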