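import Pool.Agent.Lib.RM67.Arith

/-! Project rg67: the third theorem of Mertens. -/

namespace Pool.Agent.Lib.RG67

open Finset Real Filter Topology Pool.Agent.Lib.RM67 Pool.Agent.Lib.BK2

noncomputable section

/-- The sum of reciprocals of primes up to `z`. -/
def S (z : ℕ) : ℝ := ∑ n ∈ range (z + 1), r n

/-- The second order part of the logarithm. -/
def g (t : ℝ) : ℝ := -log (1 - t) - t

/-- The Mertens product. -/
def V (z : ℕ) : ℝ := ∏ n ∈ range (z + 1), (1 - r n)

theorem S_sub {a b : ℕ} (h : a ≤ b) : S b - S a = ∑ n ∈ Ioc a b, r n := by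
  rw [S, S, ← sum_Ico_eq_sub _ (by omega), Ico_add_one_add_one_eq_Ioc]

theorem exists_B : ∃ B, Tendsto (fun z : ℝ => S ⌊z⌋₊ - log (log z)) atTop (𝓝 B) := by
  refine cauchySeq_tendsto_of_complete (Metric.cauchySeq_iff'.2 fun ε hε =>
    ⟨max 2 (exp (23 / ε)), fun z hz => ?_⟩)
  set y := max 2 (exp (23 / ε))
  have h2 : 2 ≤ y := le_max_left _ _
  have h3 : 23 / ε ≤ log y := (le_log_iff_exp_le (by linarith)).2 (le_max_right _ _)
  have h4 : 0 < log y := log_pos (by linarith)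
  have h := mert_two h2 hz
  rw [← sum_r1, ← S_sub (Nat.floor_mono hz), log_div (log_pos (by linarith [hz.le])).ne' h4.ne'] at h
  rw [dist_eq]
  refine lt_of_le_of_lt (le_trans (le_of_eq ?_) h) ?_
  · congr 1; ring
  · rw [div_lt_iff₀ h4]
    rw [div_le_iff₀ hε] at h3
    linarith

theorem abs_g {t : ℝ} {n : ℕ} (h0 : 0 ≤ t) (h : t ≤ r n) : ‖g t‖ ≤ 2 * (1 / (n : ℝ) ^ 2) := by
  have h1 := r_le n
  have h2 := abs_log_sub_add_sum_range_le (x := t) (by rw [abs_of_nonneg h0]; linarith) 1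
  have h3 : r n ≤ 1 / n := by
    by_cases hp : n.Prime
    exacts [(r_prime hp).le, (r_not hp).trans_le (by positivity)]
  simp only [range_one, sum_singleton, zero_add, pow_one, Nat.cast_zero, div_one,
    abs_of_nonneg h0] at h2
  rw [g, norm_eq_abs, ← neg_add', abs_neg, add_comm, ← one_div_pow]
  refine h2.trans ((div_le_iff₀ (by linarith)).2 ?_)
  have := pow_le_pow_left₀ h0 (h.trans h3) 2
  nlinarith [sq_nonneg (1 / (n : ℝ))]

theorem t_le {δ : ℝ} (h : 0 ≤ δ) (n : ℕ) : 0 ≤ r n * (n : ℝ) ^ (-δ) ∧ r n * (n : ℝ) ^ (-δ) ≤ r n := by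
  refine ⟨mul_nonneg (r_nonneg n) (by positivity), ?_⟩
  by_cases hp : n.Prime
  · exact mul_le_of_le_one_right (r_nonneg n)
      (rpow_le_one_of_one_le_of_nonpos (by exact_mod_cast hp.one_le) (by linarith))
  · simp [r_not hp]

theorem sum2 : Summable fun n : ℕ => 2 * (1 / (n : ℝ) ^ 2) :=
  (summable_one_div_nat_pow.2 one_lt_two).mul_left 2

theorem sum_g {δ : ℝ} (h : 0 ≤ δ) : Summable fun n : ℕ => g (r n * (n : ℝ) ^ (-δ)) :=
  .of_norm_bounded sum2 fun n => abs_g (t_le h n).1 (t_le h n).2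

theorem euler {δ : ℝ} (h : 0 < δ) : Tendsto (fun N => ∑ n ∈ range N, r n * (n : ℝ) ^ (-δ)) atTop
    (𝓝 (log (∑' n : ℕ, 1 / (n : ℝ) ^ (1 + δ)) - ∑' n : ℕ, g (r n * (n : ℝ) ^ (-δ)))) := by
  let f : ℕ →*₀ ℝ :=
    { toFun := fun n => 1 / (n : ℝ) ^ (1 + δ)
      map_zero' := by simp [zero_rpow (show 1 + δ ≠ 0 by linarith)]
      map_one' := by simp
      map_mul' := fun a b => by
        rw [Nat.cast_mul, mul_rpow (by positivity) (by positivity), one_div_mul_one_div] }
  have hs : Summable fun n : ℕ => 1 / (n : ℝ) ^ (1 + δ) := summable_one_div_nat_rpow.2 (by linarith)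
  have h1 := (EulerProduct.eulerProduct_completely_multiplicative (f := f) hs.norm).log
    (hs.tsum_pos (fun n => by positivity) 1 (by simp)).ne'
  refine (h1.sub (sum_g h.le).hasSum.tendsto_sum_nat).congr fun N => ?_
  have e : ∀ p : ℕ, p.Prime → f p = r p * (p : ℝ) ^ (-δ) := fun p hp => by
    have : (0 : ℝ) < p := by exact_mod_cast hp.pos
    change 1 / (p : ℝ) ^ (1 + δ) = _
    rw [r_prime hp, rpow_add this, rpow_one, rpow_neg this.le, ← one_div_mul_one_div, one_div (_ ^ _)]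
  rw [log_prod fun p hp => inv_ne_zero (by
      rw [e p (Nat.prime_of_mem_primesBelow hp)]; linarith [(t_le h.le p).2, r_le p]),
    Nat.primesBelow, sum_filter, ← sum_sub_distrib]
  refine sum_congr rfl fun n _ => ?_
  split_ifs with hp
  · rw [e n hp, log_inv, g]; ring
  · simp [r_not hp, g]

theorem blocks {δ : ℝ} (h : 0 ≤ δ) (K : ℕ) :
    exp (-log 2 * δ) * ∑ k ∈ range K, (S (2 ^ (k + 1)) - S (2 ^ k)) * exp (-log 2 * δ) ^ k ≤
      ∑ n ∈ range (2 ^ K + 1), r n * (n : ℝ) ^ (-δ) ∧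
    ∑ n ∈ range (2 ^ K + 1), r n * (n : ℝ) ^ (-δ) ≤
      ∑ k ∈ range K, (S (2 ^ (k + 1)) - S (2 ^ k)) * exp (-log 2 * δ) ^ k := by
  induction K with
  | zero => simp [sum_range_succ, r, d, Nat.not_prime_one]
  | succ K ih =>
    have hle : 2 ^ K ≤ 2 ^ (K + 1) := Nat.pow_le_pow_right two_pos K.le_succ
    have e : ∀ k : ℕ, exp (-log 2 * δ) ^ k = ((2 ^ k : ℕ) : ℝ) ^ (-δ) := fun k => by
      rw [rpow_def_of_pos (by positivity), ← exp_nat_mul, Nat.cast_pow, log_pow]
      congr 1; push_cast; ring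
    rw [← sum_range_add_sum_Ico _ (Nat.add_le_add_right hle 1), Ico_add_one_add_one_eq_Ioc,
      sum_range_succ (n := K), mul_add, S_sub hle,
      mul_left_comm, ← pow_succ', e, e, sum_mul, sum_mul]
    refine ⟨add_le_add ih.1 (sum_le_sum fun n hn => ?_), add_le_add ih.2 (sum_le_sum fun n hn => ?_)⟩
    all_goals
      have := mem_Ioc.1 hn
      refine mul_le_mul_of_nonneg_left (rpow_le_rpow_of_nonpos ?_ ?_ (by linarith)) (r_nonneg n)
    · exact_mod_cast K.two_pow_pos.trans this.1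
    · exact_mod_cast this.2
    · positivity
    · exact_mod_cast this.1.le

theorem B_eq {B : ℝ} (hB : Tendsto (fun z : ℝ => S ⌊z⌋₊ - log (log z)) atTop (𝓝 B)) :
    B = eulerMascheroniConstant - ∑' n, g (r n) := by
  set a : ℕ → ℝ := fun k => S (2 ^ (k + 1)) - S (2 ^ k) with ha
  have h1 : Tendsto (fun K => ∑ k ∈ range K, (a k - 1 / (k + 1))) atTop
      (𝓝 (B + log (log 2) - eulerMascheroniConstant)) := by
    have := ((hB.comp (tendsto_pow_atTop_atTop_of_one_lt (one_lt_two (α := ℝ)))).add_const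
      (log (log 2))).sub tendsto_harmonic_sub_log
    refine this.congr' ?_
    filter_upwards [eventually_gt_atTop 0] with K hK
    have e : ⌊(2 : ℝ) ^ K⌋₊ = 2 ^ K := by exact_mod_cast Nat.floor_natCast (2 ^ K)
    have e2 : S 1 = 0 := by simp [S, sum_range_succ, r, d, Nat.not_prime_one]
    rw [sum_sub_distrib, ha, sum_range_sub (fun k => S (2 ^ k)), Function.comp_apply, e, log_pow,
      log_mul (by positivity) (log_pos one_lt_two).ne', pow_zero, e2, harmonic]
    push_cast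
    simp only [one_div]
    ring
  obtain ⟨C, hC⟩ := ((((tendsto_add_atTop_iff_nat 1).2 h1).sub h1).isBigO_one ℝ).bound
  set x : ℝ → ℝ := fun δ => exp (-log 2 * δ) with hx
  have x1 : ∀ δ, 0 < δ → x δ < 1 := fun δ h =>
    exp_lt_one_iff.2 (by nlinarith [log_pos (one_lt_two (α := ℝ))])
  have x2 : Tendsto x (𝓝[>] 0) (𝓝 1) := by
    have : Continuous x := by fun_prop
    simpa [hx] using (this.tendsto 0).mono_left nhdsWithin_le_nhds
  have hE := (tendsto_tsum_powerSeries_nhdsWithin_lt h1).comp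
    (tendsto_nhdsWithin_iff.2 ⟨x2, eventually_mem_nhdsWithin.mono x1⟩)
  have hG : Tendsto (fun δ : ℝ => ∑' n : ℕ, g (r n * (n : ℝ) ^ (-δ))) (𝓝[>] 0)
      (𝓝 (∑' n, g (r n))) := by
    refine tendsto_tsum_of_dominated_convergence sum2 (fun n => ?_)
      (eventually_mem_nhdsWithin.mono fun δ (h : 0 < δ) n => abs_g (t_le h.le n).1 (t_le h.le n).2)
    by_cases hp : n.Prime
    · have h0 : (n : ℝ) ≠ 0 := by exact_mod_cast hp.ne_zero
      have : ContinuousAt (fun δ : ℝ => g (r n * (n : ℝ) ^ (-δ))) 0 := by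
        have c : Continuous fun δ : ℝ => (n : ℝ) ^ (-δ) := (continuous_const_rpow h0).comp continuous_neg
        unfold g
        fun_prop (disch := simp only [neg_zero, rpow_zero]; linarith [r_le n])
      simpa using this.tendsto.mono_left nhdsWithin_le_nhds
    · simp [r_not hp]
  have hZ : Tendsto (fun δ : ℝ => log (δ * ∑' n : ℕ, 1 / (n : ℝ) ^ (1 + δ))) (𝓝[>] 0) (𝓝 0) := by
    have t : Tendsto (fun δ : ℝ => 1 + δ) (𝓝[>] 0) (𝓝[>] 1) := tendsto_nhdsWithin_iff.2
      ⟨by simpa using ((continuous_const_add (1 : ℝ)).tendsto 0).mono_left nhdsWithin_le_nhds,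
        eventually_mem_nhdsWithin.mono fun δ (h : 0 < δ) => by simpa using h⟩
    simpa using (tendsto_sub_mul_tsum_nat_rpow.comp t).log one_ne_zero
  have hD : Tendsto (fun δ => δ⁻¹ * (1 - x δ)) (𝓝[>] 0) (𝓝 (log 2)) := by
    have := (((hasDerivAt_id (0 : ℝ)).const_mul (-log 2)).exp.const_sub 1).tendsto_slope_zero_right
    simpa [hx] using this
  have key : ∀ δ, 0 < δ → let E := ∑' k, (a k - 1 / (k + 1)) * x δ ^ k
      let P := log (δ * ∑' n : ℕ, 1 / (n : ℝ) ^ (1 + δ)) - ∑' n : ℕ, g (r n * (n : ℝ) ^ (-δ))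
      x δ * E - log (δ⁻¹ * (1 - x δ)) ≤ P ∧
      x δ * P + δ⁻¹ * (1 - x δ) * (log δ * δ ^ (1 : ℝ)) ≤ x δ * E - log (δ⁻¹ * (1 - x δ)) := by
    intro δ h E P
    have x0 : 0 < x δ := exp_pos _
    have s1 := hasSum_pow_div_log_of_abs_lt_one (x := x δ) (by rw [abs_of_pos x0]; exact x1 δ h)
    have s2 : Summable fun k => (a k - 1 / (k + 1)) * x δ ^ k := by
      refine .of_norm_bounded_eventually_nat ((summable_geometric_of_lt_one x0.le (x1 δ h)).mul_left C) ?_
      filter_upwards [hC] with k hk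
      rw [sum_range_succ, add_sub_cancel_left, norm_one, mul_one] at hk
      rw [norm_mul, norm_of_nonneg (pow_pos x0 k).le]
      gcongr
    have s3 : Tendsto (fun K => x δ * ∑ k ∈ range K, a k * x δ ^ k) atTop
        (𝓝 (x δ * E + -log (1 - x δ))) := by
      refine ((s2.hasSum.mul_left (x δ)).add s1).tendsto_sum_nat.congr fun K => ?_
      rw [mul_sum]
      exact sum_congr rfl fun k _ => by ring
    have s4 := (euler h).comp ((tendsto_add_atTop_nat 1).comp
      (tendsto_pow_atTop_atTop_of_one_lt (one_lt_two (α := ℕ))))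
    have s5 := le_of_tendsto_of_tendsto' s3 s4 fun K => (blocks h.le K).1
    have s6 := le_of_tendsto_of_tendsto' (s4.const_mul (x δ)) s3 fun K =>
      mul_le_mul_of_nonneg_left (blocks h.le K).2 x0.le
    have hs : 0 < ∑' n : ℕ, 1 / (n : ℝ) ^ (1 + δ) := (summable_one_div_nat_rpow.2
      (by linarith : 1 < 1 + δ)).tsum_pos (fun n => by positivity) 1 (by simp)
    have e : δ⁻¹ * (1 - x δ) * (log δ * δ ^ (1 : ℝ)) = (1 - x δ) * log δ := by
      rw [rpow_one]; field_simp
    simp only [P]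
    rw [e, log_mul h.ne' hs.ne', log_mul (inv_ne_zero h.ne') (by linarith [x1 δ h]), log_inv]
    constructor <;> linarith
  have hL := (x2.mul hE).sub (hD.log (log_pos one_lt_two).ne')
  have k1 := le_of_tendsto_of_tendsto hL (hZ.sub hG)
    (eventually_mem_nhdsWithin.mono fun δ h => (key δ h).1)
  have k2 := le_of_tendsto_of_tendsto ((x2.mul (hZ.sub hG)).add
    (hD.mul (tendsto_log_mul_rpow_nhdsGT_zero one_pos))) hL
    (eventually_mem_nhdsWithin.mono fun δ h => (key δ h).2)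
  linarith

/-- The third theorem of Mertens. -/
theorem mertens3 : Tendsto (fun z : ℝ => V ⌊z⌋₊ * log z) atTop
    (𝓝 (exp (-eulerMascheroniConstant))) := by
  obtain ⟨B, hB⟩ := exists_B
  have h1 : Summable fun n => g (r n) := by simpa using sum_g le_rfl
  have h2 := (hB.add (h1.hasSum.tendsto_sum_nat.comp ((tendsto_add_atTop_nat 1).comp
    (tendsto_nat_floor_atTop (α := ℝ))))).neg.rexp
  rw [B_eq hB, sub_add_cancel] at h2
  refine h2.congr' ?_
  filter_upwards [eventually_gt_atTop 1] with z hz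
  have e : V ⌊z⌋₊ = exp (-(S ⌊z⌋₊ + ∑ n ∈ range (⌊z⌋₊ + 1), g (r n))) := by
    rw [S, ← sum_add_distrib, ← sum_neg_distrib, exp_sum]
    refine prod_congr rfl fun n _ => ?_
    rw [g, add_sub_cancel, neg_neg, exp_log (by linarith [r_le n])]
  rw [e, ← exp_log (log_pos hz), ← exp_add, log_exp]
  simp only [Function.comp_apply]
  congr 1; ring

end

end Pool.Agent.Lib.RG67
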