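import Pool.Agent.Lib.RG67.Cnt

/-! Project rg67: the asymptotic formula. -/

namespace Pool.Agent.Lib.RG67

open Finset Real Filter Topology

noncomputable section

theorem lim_V (c : ℝ) {z : ℝ → ℝ} (h0 : ∀ u, 1 < u → 0 < z u)
    (h : ∀ u, 1 < u → log (z u) = log u + c * log (log u)) : Tendsto z atTop atTop ∧
    Tendsto (fun u => V ⌊z u⌋₊ * log u) atTop (𝓝 (exp (-eulerMascheroniConstant))) := by
  have h1 : Tendsto (fun u => log (z u) / log u) atTop (𝓝 1) := by
    have := ((isLittleO_log_id_atTop.tendsto_div_nhds_zero.comp tendsto_log_atTop).const_mul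
      c).const_add 1
    rw [mul_zero, add_zero] at this
    refine this.congr' ((eventually_gt_atTop 1).mono fun u hu => ?_)
    have := (log_pos hu).ne'
    simp only [h u hu, Function.comp_apply, id]
    field_simp
  have h2 : Tendsto z atTop atTop := by
    refine (tendsto_exp_atTop.comp (h1.pos_mul_atTop one_pos tendsto_log_atTop)).congr'
      ((eventually_gt_atTop 1).mono fun u hu => ?_)
    simp only [Function.comp_apply, div_mul_cancel₀ _ (log_pos hu).ne', exp_log (h0 u hu)]
  refine ⟨h2, ?_⟩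
  have h3 := (mertens3.comp h2).div h1 one_ne_zero
  rw [div_one] at h3
  refine h3.congr' ?_
  filter_upwards [eventually_gt_atTop 1, h2.eventually_gt_atTop 1] with u hu hz
  have := (log_pos hu).ne'
  have := (log_pos hz).ne'
  simp only [Pi.div_apply, Function.comp_apply]
  field_simp

theorem count_lim : Tendsto (fun N : ℕ => ((AA N).card : ℝ) * log (log (log N)) / N) atTop
    (𝓝 (3 / 2 * exp (-eulerMascheroniConstant))) := by
  obtain ⟨K, hK⟩ := lam_ge
  have tu : Tendsto (fun N : ℕ => log (log N)) atTop atTop :=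
    tendsto_log_atTop.comp (tendsto_log_atTop.comp tendsto_natCast_atTop_atTop)
  obtain ⟨a1, a2⟩ := lim_V (-2) (z := fun u => u / log u ^ 2)
    (fun u hu => by have := log_pos hu; positivity) fun u hu => by
      rw [log_div (by positivity) (pow_pos (log_pos hu) 2).ne', log_pow]; push_cast; ring
  obtain ⟨b1, b2⟩ := lim_V 2 (z := fun u => u * log u ^ 2)
    (fun u hu => by have := log_pos hu; positivity) fun u hu => by
      rw [log_mul (by positivity) (pow_pos (log_pos hu) 2).ne', log_pow]; push_cast; ring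
  have t0 := fun c : ℝ => (tendsto_log_atTop.comp tu).const_div_atTop c
  have U := ((a2.comp tu).const_mul (3 / 2)).add (t0 99)
  have L := ((b2.comp tu).const_mul (3 / 2)).sub (t0 2003)
  rw [add_zero] at U
  rw [sub_zero] at L
  suffices H : ∀ᶠ N : ℕ in atTop, _ ∧ _ from tendsto_of_tendsto_of_tendsto_of_le_of_le' L U
    (H.mono fun _ h => h.1) (H.mono fun _ h => h.2)
  filter_upwards [eventually_gt_atTop 1, tu.eventually_ge_atTop 100, tu.eventually_ge_atTop K,
    (a1.comp tu).eventually_ge_atTop 4, (tendsto_log_atTop.comp tu).eventually_ge_atTop 4]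
    with N hN h1 h2 h3 h4
  simp only [Function.comp_apply] at h3 h4 ⊢
  have hN' : (1 : ℝ) < N := by exact_mod_cast hN
  have e1 : exp (log (log N)) = log N := exp_log (log_pos hN')
  have j1 := lg2 N
  have j2 : (Nat.log 2 (Nat.log 2 N) : ℝ) ≤ 2 * (log 2 + log (log N)) := by
    refine (lg2 _).trans (mul_le_mul_of_nonneg_left ?_ zero_le_two)
    rw [← log_mul two_ne_zero (log_pos hN').ne']
    exact log_le_log (by exact_mod_cast Nat.log_pos one_lt_two hN) j1
  have j3 : log N ≤ 2 * ((Nat.log 2 N / 2 : ℕ) + 1 : ℝ) := by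
    have := RM67.log_le_of_lt (Nat.lt_pow_succ_log_self one_lt_two N)
    exact this.trans (by exact_mod_cast (by omega))
  set u := log (log N)
  set v := log u with hv
  have l2 := log_two_lt_d9
  have e2 : u ^ 4 / 24 ≤ log N := by
    have := pow_div_factorial_le_exp u (by linarith) 4
    rwa [e1, show ((Nat.factorial 4 : ℕ) : ℝ) = 24 by norm_num [Nat.factorial]] at this
  have v1 : v ≤ u := (log_le_sub_one_of_pos (by linarith)).trans (by linarith)
  have v2 : 16 ≤ v ^ 2 := by nlinarith
  have u3 : 10000 * u ≤ u ^ 3 := by nlinarith [mul_self_le_mul_self (by norm_num) h1]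
  have u4 : 100 * u ^ 3 ≤ u ^ 4 := by nlinarith
  have err : ∀ y : ℕ, (y : ℝ) ≤ u * v ^ 2 → 3 * 4 ^ y * v / N ≤ 3 / v := fun y hy => by
    have a : (4 : ℝ) ^ y ≤ exp (2 * u ^ 3) := by
      rw [← exp_log (show (0 : ℝ) < 4 ^ y by positivity), log_pow, show (4 : ℝ) = 2 ^ 2 by norm_num,
        log_pow]
      have : u * v ^ 2 ≤ u * u ^ 2 := by gcongr
      exact exp_le_exp.2 (by push_cast; nlinarith [(Nat.cast_nonneg y : (0 : ℝ) ≤ y)])
    have b : v ≤ exp u := by linarith [add_one_le_exp u]
    have c : exp (2 * u ^ 3) * (exp u * exp u) ≤ N := by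
      rw [← exp_add, ← exp_add, ← exp_log (show (0 : ℝ) < N by linarith)]
      exact exp_le_exp.2 (by linarith)
    rw [div_le_div_iff₀ (by linarith) (by linarith)]
    nlinarith [mul_le_mul a (mul_self_le_mul_self (by linarith) b) (by positivity) (exp_pos _).le]
  constructor
  · have y1 : (⌊u * v ^ 2⌋₊ : ℝ) ≤ u * v ^ 2 := Nat.floor_le (by positivity)
    have y2 := Nat.lt_floor_add_one (u * v ^ 2)
    have y3 : 3 ≤ ⌊u * v ^ 2⌋₊ := Nat.le_floor (by push_cast; nlinarith)
    have a := (abs_le.1 (GG_est (by omega : 2 ≤ ⌊u * v ^ 2⌋₊) N)).1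
    have b := GG_le y3 N
    have c := err _ y1
    set y := ⌊u * v ^ 2⌋₊
    have y4 : (3 : ℝ) ≤ y := by exact_mod_cast y3
    have f : log y ≤ 3 * v := by
      refine (log_le_log (by linarith) (y1.trans (show _ ≤ u ^ 3 from
        le_trans (b := u * u ^ 2) (by gcongr) (le_of_eq (by ring))))).trans_eq ?_
      rw [log_pow]; rfl
    have g : (267 + 224 * Nat.log 2 (Nat.log 2 N) + 16 * log y) / y * v ≤ 2000 / v := by
      rw [div_mul_eq_mul_div, div_le_div_iff₀ (by linarith) (by linarith)]
      have : 267 + 224 * (Nat.log 2 (Nat.log 2 N) : ℝ) + 16 * log y ≤ 1000 * u := by linarith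
      nlinarith [mul_le_mul_of_nonneg_right this (sq_nonneg v)]
    rw [div_le_iff₀ (by linarith)] at c
    rw [le_div_iff₀ (by linarith), show 2003 / v = 2000 / v + 3 / v by ring]
    nlinarith [mul_le_mul_of_nonneg_right (add_le_add a b) (show 0 ≤ v by linarith),
      mul_le_mul_of_nonneg_left g N.cast_nonneg]
  · have y1 : (⌊u / v ^ 2⌋₊ : ℝ) ≤ u / v ^ 2 := Nat.floor_le (by positivity)
    have y3 : 4 ≤ ⌊u / v ^ 2⌋₊ := Nat.le_floor (by exact_mod_cast h3)
    set y := ⌊u / v ^ 2⌋₊
    have y2 : (y : ℝ) * v ^ 2 ≤ u := (le_div_iff₀ (by positivity)).1 y1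
    have y0 : (0 : ℝ) ≤ y := y.cast_nonneg
    have y4 : 16 * (y : ℝ) ≤ u := by nlinarith
    have y5 : 2 * y + K ≤ Nat.log 2 N / 2 := by
      exact_mod_cast (by linarith : (2 * y + K : ℝ) ≤ (Nat.log 2 N / 2 : ℕ))
    have a := (abs_le.1 (GG_est (by omega : 2 ≤ y) N)).2
    have b := AA_le (N := N) (a := 2 * y + K) (b := Nat.log 2 N / 2) (D := u / 2) y3
      (by
        refine le_trans (Nat.mul_le_mul_left _ (le_trans (show _ ≤ Nat.log 2 N / 2 by omega)
          Nat.lt_two_pow_self.le)) (le_trans ?_ (Nat.pow_log_le_self 2 (by omega : N ≠ 0)))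
        rw [← pow_add]
        exact Nat.pow_le_pow_right two_pos (by omega))
      (by linarith) fun q q1 q2 => by
        refine le_trans ?_ (hK q _ _ q1 (by omega) (by omega) y5)
        have p1 : u - log 2 ≤ log ((Nat.log 2 N / 2 : ℕ) + 1 : ℝ) := by
          rw [← log_div (log_pos hN').ne' two_ne_zero]
          exact log_le_log (half_pos (log_pos hN')) (by linarith)
        have p2 : log ((2 * y + K : ℕ) + 1 : ℝ) ≤ log (2 ^ 6 * (u / 16)) :=
          log_le_log (by positivity) (by push_cast; linarith)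
        rw [log_mul (by norm_num) (by positivity), log_pow] at p2
        have p3 := log_le_sub_one_of_pos (show 0 < u / 16 by positivity)
        push_cast at p1 p2 ⊢
        gcongr
        linarith
    have c := err y (by nlinarith)
    have g : y * (48 * N / (u / 2)) * v ≤ 96 / v * N := by
      rw [div_mul_eq_mul_div, le_div_iff₀ (by linarith)]
      calc _ = 96 * N * (y * v ^ 2 / u) := by field_simp; ring
        _ ≤ 96 * N * 1 := by gcongr; exact (div_le_one (by linarith)).2 y2
        _ = _ := mul_one _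
    rw [div_le_iff₀ (by linarith)] at c
    rw [div_le_iff₀ (by linarith), show 99 / v = 96 / v + 3 / v by ring]
    nlinarith [mul_le_mul_of_nonneg_right (add_le_add a b) (show 0 ≤ v by linarith)]

end

end Pool.Agent.Lib.RG67
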